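import Mathlib
import Pool.Agent.W593.IR.All4

set_option autoImplicit false

namespace Pool.Agent.Results.MP_9079fe_co.AsymptoticRanges

open Finset

/-- The upper bound of the Erdős matching conjecture up to a factor `1 + ε`, uniformly in `s`, for
all `n ≥ n₀(k, ε)`: for `k = 4` and `k = 5` without any further condition on `n` and `s`, and for
every `k ≥ 2` if `n ≥ (k + 5/8) s` or `n ≤ (k + 2/5) s`. -/
theorem result (k : ℕ) (hk : 2 ≤ k) (ε : ℝ) (hε : 0 < ε) :
    ∃ n0 : ℕ, ∀ n : ℕ, n0 ≤ n → ∀ s : ℕ, k * (s + 1) ≤ n →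
      (k = 4 ∨ k = 5 ∨ ((k : ℝ) + 5 / 8) * s ≤ n ∨ (n : ℝ) ≤ ((k : ℝ) + 2 / 5) * s) →
      ∀ F : Finset (Finset (Fin n)), (∀ A ∈ F, A.card = k) →
        (∀ M : Finset (Finset (Fin n)), M ⊆ F →
          (M : Set (Finset (Fin n))).PairwiseDisjoint id → M.card ≤ s) →
        (F.card : ℝ) ≤ (1 + ε) * max (((n.choose k : ℕ) : ℝ) - (((n - s).choose k : ℕ) : ℝ))
          (((k * (s + 1) - 1).choose k : ℕ) : ℝ) := by
  obtain ⟨n0, h⟩ := Pool.Agent.W593.IR.t_unif k hk ε hε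
  refine ⟨n0, fun n hn s hs hc F hF hM => h n hn s (le_trans (Nat.mul_le_mul_left k (Nat.le_succ s)) hs)
    ?_ F hF ?_⟩
  · rcases hc with h | h | h | h
    · exact Or.inl h
    · exact Or.inr (Or.inl h)
    · refine Or.inr (Or.inr (Or.inl ?_))
      have : ((8 * k + 5) * s : ℝ) ≤ 8 * n := by nlinarith
      exact_mod_cast this
    · refine Or.inr (Or.inr (Or.inr ?_))
      have : (5 * n : ℝ) ≤ (5 * k + 2) * s := by nlinarith
      exact_mod_cast this
  · rintro ⟨M, hMF, hMd, hMc⟩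
    have := hM M hMF (fun e he e' he' hne => hMd e he e' he' hne)
    omega

end Pool.Agent.Results.MP_9079fe_co.AsymptoticRanges
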