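import Mathlib
import Pool.Agent.W890.SF.All

set_option autoImplicit false

namespace Pool.Agent.Results.MP_9079fe_co.LargeNBeyondKPlusOne

/-- For every `k ≥ 2` there is `n0` such that for all `n ≥ n0` and all `s` with
`n ≥ (k + 39/40) s` (in particular for `n ≥ (k+1) s`) the largest family of `k`-subsets of
`Fin n` with at most `s` pairwise disjoint members has size
`max (C(n,k) - C(n-s,k)) (C(k(s+1)-1,k))`, and the maximum is the first term. -/
theorem result (k : ℕ) (hk : 2 ≤ k) :
    ∃ n0 : ℕ, ∀ n : ℕ, n0 ≤ n → ∀ s : ℕ, (40 * k + 39) * s ≤ 40 * n →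
      IsGreatest
        {m : ℕ | ∃ F : Finset (Finset (Fin n)),
          (∀ A ∈ F, A.card = k) ∧
          (∀ M ⊆ F, (M : Set (Finset (Fin n))).PairwiseDisjoint id → M.card ≤ s) ∧
          F.card = m}
        (max (n.choose k - (n - s).choose k) ((k * (s + 1) - 1).choose k)) ∧
      (k * (s + 1) - 1).choose k ≤ n.choose k - (n - s).choose k ∧ k * (s + 1) ≤ n :=
  Pool.Agent.W890.SF.R2.greatest Pool.Agent.W890.SF.t_EMC Pool.Agent.W890.SF.t_LOW k hk

end Pool.Agent.Results.MP_9079fe_co.LargeNBeyondKPlusOne
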